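import Pool.Agent.EVF.StmtsG

set_option autoImplicit false

namespace Pool.Agent.EVF.H52

open MvPolynomial Matrix
open Pool.Agent.EVF

/-- A derivation of a product. -/
theorem der_prod {S R ι : Type} [CommRing S] [CommRing R] [Algebra S R] [DecidableEq ι]
    (D : Derivation S R R) (s : Finset ι) (f : ι → R) :
    D (∏ i ∈ s, f i) = ∑ k ∈ s, D (f k) * ∏ i ∈ s.erase k, f i := by
  induction s using Finset.induction_on with
  | empty => simp
  | insert a s ha ih =>
    rw [Finset.prod_insert ha, Derivation.leibniz, ih, Finset.sum_insert ha,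
      Finset.erase_insert ha, smul_eq_mul, smul_eq_mul, Finset.mul_sum, add_comm, mul_comm]
    congr 1
    refine Finset.sum_congr rfl fun k hk => ?_
    have hka : k ≠ a := by
      rintro rfl
      exact ha hk
    rw [Finset.erase_insert_of_ne (Ne.symm hka), Finset.prod_insert (by
      intro h
      exact ha (Finset.mem_of_mem_erase h))]
    ring

/-- A derivation of a determinant. -/
theorem der_det {S R ι : Type} [CommRing S] [CommRing R] [Algebra S R] [DecidableEq ι] [Fintype ι]
    (D : Derivation S R R) (A : Matrix ι ι R) :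
    D A.det = ∑ k, ∑ i, A.adjugate k i * D (A i k) := by
  have h1 : ∀ k, ∑ i, A.adjugate k i * D (A i k) = (A.updateCol k fun i => D (A i k)).det := by
    intro k
    have h2 := congrFun (Matrix.cramer_eq_adjugate_mulVec A fun i => D (A i k)) k
    rw [Matrix.cramer_apply] at h2
    rw [h2]
    rfl
  rw [Finset.sum_congr rfl fun k _ => h1 k, Matrix.det_apply, map_sum]
  simp only [Matrix.det_apply]
  rw [Finset.sum_comm]
  refine Finset.sum_congr rfl fun σ _ => ?_
  rw [← Finset.smul_sum]
  have h3 : D (Equiv.Perm.sign σ • ∏ i, A (σ i) i) = Equiv.Perm.sign σ • D (∏ i, A (σ i) i) := by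
    rcases Int.units_eq_one_or (Equiv.Perm.sign σ) with h | h
    · rw [h, one_smul, one_smul]
    · rw [h, Units.neg_smul, Units.neg_smul, one_smul, one_smul, map_neg]
  rw [h3, der_prod]
  congr 1
  refine Finset.sum_congr rfl fun k _ => ?_
  rw [← Finset.mul_prod_erase Finset.univ _ (Finset.mem_univ k), Matrix.updateCol_self]
  congr 1
  refine Finset.prod_congr rfl fun i hi => ?_
  rw [Matrix.updateCol_ne (Finset.ne_of_mem_erase hi)]

/-- vectors in the kernel are determined by one coordinate -/
theorem ker_coord {r : ℕ} (B : Matrix (Fin r) (Fin r) ℂ) {k i : Fin r} (h : B.adjugate k i ≠ 0)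
    {u : Fin r → ℂ} (hu : B *ᵥ u = 0) (hk : u k = 0) : u = 0 := by
  rw [Matrix.adjugate_apply] at h
  apply Matrix.eq_zero_of_mulVec_eq_zero h
  funext l
  by_cases hl : l = i
  · subst hl
    rw [Matrix.mulVec, Matrix.updateRow_self, single_dotProduct, hk, mul_zero]
    rfl
  · rw [Matrix.mulVec, Matrix.updateRow_ne hl]
    exact congrFun hu l

theorem rk_one {r : ℕ} (B : Matrix (Fin r) (Fin r) ℂ) (hs : B.transpose = B) (hd : B.det = 0)
    {k i : Fin r} (h : B.adjugate k i ≠ 0) :
    ∃ w : Fin r → ℂ, w ≠ 0 ∧ ∀ i j, B.adjugate i j = w i * w j := by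
  have hP : ∀ a b, B.adjugate a b = B.adjugate b a := by
    intro a b
    have h1 := Matrix.adjugate_transpose B
    rw [hs] at h1
    exact congrFun (congrFun h1 b) a
  have hcol : ∀ j, B *ᵥ (fun a => B.adjugate a j) = 0 := by
    intro j
    funext l
    have h1 := congrFun (congrFun (Matrix.mul_adjugate B) l) j
    rw [hd, zero_smul] at h1
    exact h1
  have hrel : ∀ a j j', B.adjugate k j * B.adjugate a j' = B.adjugate k j' * B.adjugate a j := by
    intro a j j'
    have h1 : (B.adjugate k j) • (fun a => B.adjugate a j') -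
        (B.adjugate k j') • (fun a => B.adjugate a j) = 0 := by
      apply ker_coord B h
      · rw [Matrix.mulVec_sub, Matrix.mulVec_smul, Matrix.mulVec_smul, hcol, hcol, smul_zero,
          smul_zero, sub_zero]
      · simp only [Pi.sub_apply, Pi.smul_apply, smul_eq_mul]
        ring
    have h2 := congrFun h1 a
    simp only [Pi.sub_apply, Pi.smul_apply, smul_eq_mul, Pi.zero_apply] at h2
    linear_combination h2
  have hkk : B.adjugate k k ≠ 0 := by
    intro h0
    have h1 := hrel i k i
    rw [h0, zero_mul, hP i k] at h1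
    exact h (mul_self_eq_zero.mp h1.symm)
  obtain ⟨s, hsq⟩ := IsAlgClosed.exists_pow_nat_eq (B.adjugate k k) (n := 2) two_pos
  have hs0 : s ≠ 0 := by
    rintro rfl
    apply hkk
    rw [← hsq]
    simp
  refine ⟨fun a => B.adjugate a k / s, ?_, ?_⟩
  · intro h0
    have h1 := congrFun h0 k
    simp only [Pi.zero_apply] at h1
    rcases div_eq_zero_iff.mp h1 with h2 | h2
    · exact hkk h2
    · exact hs0 h2
  · intro a b
    have h1 := hrel a k b
    have h2 : B.adjugate a k / s * (B.adjugate b k / s) =
        B.adjugate a k * B.adjugate b k / s ^ 2 := by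
      rw [div_mul_div_comm, sq]
    rw [h2, hsq, eq_div_iff hkk, hP b k]
    linear_combination h1

theorem rk1 : Rk1Stmt := by
  intro r A hA x y h0 h1
  set φ : MvPolynomial (Fin 2) ℂ →+* ℂ := MvPolynomial.eval ![x, y] with hφ
  have hv : ∀ G, Helper90Frey.val G x y = φ G := fun G => rfl
  set B : Matrix (Fin r) (Fin r) ℂ := φ.mapMatrix A with hB
  have hdet : B.det = 0 := by
    rw [hB, ← RingHom.map_det]
    exact h0
  have hadj : ∀ i j, φ (A.adjugate i j) = B.adjugate i j := by
    intro i j
    have := congrFun (congrFun (RingHom.map_adjugate φ A) i) j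
    exact this
  have hsym : B.transpose = B := by
    ext i j
    change φ (A j i) = φ (A i j)
    rw [hA i j]
  have hne : ∃ k i, B.adjugate k i ≠ 0 := by
    by_contra hcon
    push Not at hcon
    apply h1
    rw [hv, der_det, map_sum]
    refine Finset.sum_eq_zero fun k _ => ?_
    rw [map_sum]
    refine Finset.sum_eq_zero fun i _ => ?_
    rw [map_mul, hadj, hcon, zero_mul]
  obtain ⟨k, i, hki⟩ := hne
  obtain ⟨w, hw, hww⟩ := rk_one B hsym hdet hki
  refine ⟨w, hw, fun i j => ?_⟩
  rw [hv, hadj, hww]

end Pool.Agent.EVF.H52
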