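import Pool.Agent.EVF.StmtsF

set_option autoImplicit false

namespace Pool.Agent.EVF.H52

open Pool.Agent.EVF

theorem upd_upd {k : ℕ} (t : Fin k → ℤ) (l : Fin k) (c d : ℤ) :
    Function.update (Function.update t l c) l d = Function.update t l d := by
  funext i
  by_cases h : i = l
  · subst h
    rw [Function.update_self, Function.update_self]
  · rw [Function.update_of_ne h, Function.update_of_ne h, Function.update_of_ne h]

theorem sli (card : CardStmt) : SliStmt := by
  classical
  intro k W l G Q hG hQ ε hε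
  obtain ⟨B1, hB1⟩ := hG (ε / 2) (half_pos hε)
  have h3 : (0 : ℝ) < 3 ^ k := by positivity
  obtain ⟨B2, hB2⟩ := hQ (ε / (2 * 3 ^ k)) (by positivity)
  refine ⟨max 1 (max B1 B2), fun B hB => ?_⟩
  have hB0 : 1 ≤ B := (le_max_left _ _).trans hB
  have hBB1 : B1 ≤ B := ((le_max_left _ _).trans (le_max_right _ _)).trans hB
  have hBB2 : B2 ≤ B := ((le_max_right _ _).trans (le_max_right _ _)).trans hB
  obtain ⟨hfin, hcard⟩ := card k W B
  have hcard := hcard hB0
  set T : ℕ := B ^ W l with hT
  have hTB : (B : ℤ) ^ W l = (T : ℤ) := by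
    rw [hT]
    push_cast
    rfl
  have hT1 : 1 ≤ T := Nat.one_le_pow _ _ hB0
  set S : Finset (Fin k → ℤ) := hfin.toFinset with hS
  have hSm : ∀ t, t ∈ S ↔ t ∈ Box W B := fun t => hfin.mem_toFinset
  have hScard : (S.card : ℝ) ≤ 3 ^ k * (B : ℝ) ^ (∑ l, W l) := by
    rw [hS, ← Set.ncard_eq_toFinset_card _ hfin]
    exact hcard
  set L : Finset (Fin k → ℤ) := S.image (fun t => Function.update t l 0) with hL
  have hupd : ∀ t ∈ Box W B, ∀ c : ℤ, |c| ≤ (T : ℤ) → Function.update t l c ∈ Box W B := by
    intro t ht c hc i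
    by_cases h : i = l
    · subst h
      rw [Function.update_self, hTB]
      exact hc
    · rw [Function.update_of_ne h]
      exact ht i
  have hLm : ∀ s ∈ L, s ∈ Box W B ∧ Function.update s l 0 = s := by
    intro s hs
    obtain ⟨t, ht, rfl⟩ := Finset.mem_image.mp hs
    refine ⟨hupd t ((hSm t).mp ht) 0 (by rw [abs_zero]; exact Int.natCast_nonneg _), ?_⟩
    rw [upd_upd]
  -- the number of lines
  have hLcard : (L.card : ℝ) * T ≤ 3 ^ k * (B : ℝ) ^ (∑ l, W l) := by
    refine le_trans ?_ hScard
    have h1 : (L ×ˢ Finset.Icc (1 : ℤ) T).card ≤ S.card := by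
      refine Finset.card_le_card_of_injOn (fun p => Function.update p.1 l p.2) ?_ ?_
      · intro p hp
        have hp' := Finset.mem_product.mp (Finset.mem_coe.mp hp)
        have h2 := Finset.mem_Icc.mp hp'.2
        refine Finset.mem_coe.mpr ((hSm _).mpr (hupd p.1 (hLm _ hp'.1).1 p.2 ?_))
        rw [abs_of_nonneg (by linarith [h2.1])]
        exact h2.2
      · intro p hp q hq hpq
        have hp' := Finset.mem_product.mp (Finset.mem_coe.mp hp)
        have hq' := Finset.mem_product.mp (Finset.mem_coe.mp hq)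
        have hpq' : Function.update p.1 l p.2 = Function.update q.1 l q.2 := hpq
        have h2 : p.2 = q.2 := by
          have := congrFun hpq' l
          rwa [Function.update_self, Function.update_self] at this
        have h3 : p.1 = q.1 := by
          rw [← (hLm _ hp'.1).2, ← (hLm _ hq'.1).2, ← upd_upd p.1 l p.2 0, ← upd_upd q.1 l q.2 0,
            hpq']
        exact Prod.ext h3 h2
    rw [Finset.card_product, Int.card_Icc] at h1
    have h2 : ((T : ℤ) + 1 - 1).toNat = T := by
      rw [add_sub_cancel_right, Int.toNat_natCast]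
    rw [h2] at h1
    exact_mod_cast h1
  -- the exceptions
  set Lg : Finset (Fin k → ℤ) := L.filter
    (fun s => ∃ t ∈ Box W B, G B t ∧ Function.update t l 0 = s) with hLg
  set C : Finset ℤ := Finset.Icc (-(T : ℤ)) T with hC
  have hCm : ∀ c : ℤ, c ∈ C ↔ |c| ≤ (T : ℤ) := by
    intro c
    rw [hC, Finset.mem_Icc, abs_le]
  set EG : Finset (Fin k → ℤ) := S.filter (fun t => ¬ G B t) with hEG
  have hEGcard : (EG.card : ℝ) ≤ ε / 2 * (B : ℝ) ^ (∑ l, W l) := by
    have h1 := hB1 B hBB1
    have h2 : {t : Fin k → ℤ | t ∈ Box W B ∧ ¬ G B t} = ↑EG := by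
      ext t
      rw [Set.mem_setOf_eq, Finset.mem_coe, hEG, Finset.mem_filter, hSm]
    rw [h2, Set.ncard_coe_finset] at h1
    exact h1
  set E : Finset (Fin k → ℤ) := S.filter (fun t => ¬ Q B t) with hE
  have hEset : {t : Fin k → ℤ | t ∈ Box W B ∧ ¬ Q B t} = ↑E := by
    ext t
    rw [Set.mem_setOf_eq, Finset.mem_coe, hE, Finset.mem_filter, hSm]
  rw [hEset, Set.ncard_coe_finset]
  have hsub : E ⊆ EG ∪ Lg.biUnion (fun s =>
      (C.filter (fun c => ¬ Q B (Function.update s l c))).image
        (fun c => Function.update s l c)) := by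
    intro t ht
    rw [hE, Finset.mem_filter] at ht
    have htB : t ∈ Box W B := (hSm t).mp ht.1
    by_cases hg : G B t
    · refine Finset.mem_union_right _ (Finset.mem_biUnion.mpr ⟨Function.update t l 0, ?_, ?_⟩)
      · rw [hLg, Finset.mem_filter]
        exact ⟨Finset.mem_image_of_mem _ ht.1, t, htB, hg, rfl⟩
      · refine Finset.mem_image.mpr ⟨t l, ?_, ?_⟩
        · rw [Finset.mem_filter, hCm, upd_upd, Function.update_eq_self]
          refine ⟨?_, ht.2⟩
          rw [← hTB]
          exact htB l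
        · rw [upd_upd, Function.update_eq_self]
    · refine Finset.mem_union_left _ ?_
      rw [hEG, Finset.mem_filter]
      exact ⟨ht.1, hg⟩
  have hline : ∀ s ∈ Lg, (((C.filter (fun c => ¬ Q B (Function.update s l c))).image
      (fun c => Function.update s l c)).card : ℝ) ≤ ε / (2 * 3 ^ k) * T := by
    intro s hs
    rw [hLg, Finset.mem_filter] at hs
    obtain ⟨_, t, ht, hg, hts⟩ := hs
    have h1 := hB2 B hBB2 t ht hg
    have h2 : {c : ℤ | |c| ≤ (B : ℤ) ^ W l ∧ ¬ Q B (Function.update t l c)} =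
        ↑(C.filter (fun c => ¬ Q B (Function.update s l c))) := by
      ext c
      rw [Set.mem_setOf_eq, Finset.mem_coe, Finset.mem_filter, hCm, hTB, ← hts, upd_upd]
    rw [h2, Set.ncard_coe_finset] at h1
    have h3 : ((B : ℝ) ^ W l) = (T : ℝ) := by
      rw [hT]
      push_cast
      rfl
    rw [h3] at h1
    refine le_trans ?_ h1
    exact_mod_cast Finset.card_image_le
  have hsum : (E.card : ℝ) ≤ EG.card + ∑ s ∈ Lg,
      (((C.filter (fun c => ¬ Q B (Function.update s l c))).image
        (fun c => Function.update s l c)).card : ℝ) := by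
    have h1 := (Finset.card_le_card hsub).trans (Finset.card_union_le _ _)
    have h2 := h1.trans (Nat.add_le_add_left Finset.card_biUnion_le _)
    exact_mod_cast h2
  have hsum2 : ∑ s ∈ Lg, (((C.filter (fun c => ¬ Q B (Function.update s l c))).image
      (fun c => Function.update s l c)).card : ℝ) ≤ L.card * (ε / (2 * 3 ^ k) * T) := by
    refine (Finset.sum_le_sum hline).trans ?_
    rw [Finset.sum_const, nsmul_eq_mul]
    refine mul_le_mul_of_nonneg_right ?_ (by positivity)
    exact_mod_cast Finset.card_le_card (Finset.filter_subset _ _)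
  have hfin2 : (L.card : ℝ) * (ε / (2 * 3 ^ k) * T) ≤ ε / 2 * (B : ℝ) ^ (∑ l, W l) := by
    have h1 : (L.card : ℝ) * (ε / (2 * 3 ^ k) * T) = ε / (2 * 3 ^ k) * (L.card * T) := by ring
    rw [h1]
    refine (mul_le_mul_of_nonneg_left hLcard (by positivity)).trans (le_of_eq ?_)
    field_simp
  linarith [hsum, hsum2, hfin2, hEGcard]

end Pool.Agent.EVF.H52
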